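import Mathlib
import Pool.Agent.TH216.EP.Fin

/-!
# Denef's question for all polynomials with affinely independent exponents and all primes

Let `f = ∑_j c_j x ^ (m j)` with integral `c_j ≠ 0` and at least two monomials, whose exponent vectors
are affinely independent. There is NO condition on the exponents (`B1`-facets, non-isolated
singularities, monomial factors and nonreduced factors are allowed), no condition on the coefficients
and NO prime is excluded. Then for every prime `p` and for every pole `T₀` of Igusa's Poincaré series
of `f`, the number `t₀ = - log |T₀| / log p` is a root of the Bernstein-Sato polynomial of `f`, and the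
order of the pole is at most the multiplicity of the root. This is the question as posed, for
every prime, for these polynomials, also with orders.

Method. Let `w_j` be the unit part and `γ_j` the valuation of `c_j`. For `z ∈ ℤ ^ k` let `G(z)` be the
normalised measure of the set of the units `y ∈ (ℤ_p^×) ^ n` with `∑_j p ^ (z_j) w_j y ^ (m j) ∈ ℤ_p`,
and `F(z) = G(z) - p⁻¹ G(z + (1, …, 1))`. Then `F(z)` depends only on the `min(z_j, 0)`, and by Hensel's
lemma and the affine independence it vanishes if some `z_j` is very negative, for every `p`. So `F` is
a difference polynomial, in the shifts of the coordinates of `ℤ ^ k`, applied to the Heaviside function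
of the positive orthant, and up to elementary terms the Poincaré series is the generating function of
`a_t = ∑_u p ^ (-|u|) F(⟨u, m_1⟩ + γ_1 - t, …, ⟨u, m_k⟩ + γ_k - t)`. If `m j0 i = 1`, then the variable
`x_i` occurs linearly in the `j0`-th monomial, and multiplying `x_i` by units gives the relations
`F(z) + (p - 1) F(z') = 0` (`z_{j0} = 0`, `z'_{j0} = -1`) and `F(z) = 0` (`z_{j0} ≤ -2`) for the `z` with
`z_j ≥ 0` for all other monomials `j` which are divisible by `x_i`. These relations, which hold for every
`p`, are what the multiplicative functional argument needs; it turns the functional equation of `b_f`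
into the bound of the orders of the poles.
-/

set_option autoImplicit false

namespace Pool.Agent.Results.MP_5d9b3c_ag.AffinelyIndependentEveryPrime

open Pool.Agent.W206.CU

/-- **Denef's question on the poles of Igusa's Poincaré series for all polynomials with affinely
independent exponents and every prime `p`, with orders.**

`poincare p f = ∑_m a_m (p ^ (-n) T) ^ m`, `a_m` the number of zeros of `f` modulo `p ^ m`.
`IsPoleOfOrder P T₀ μ`, `μ > 0`, says that `P = A / ((T - T₀) ^ μ B)` with polynomials `A`, `B` which do
not vanish at `T₀`: the rational function `P` has a pole of order `μ` at `T₀`. `IsBFunction f b` says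
that `b(s) f ^ s = P(s) f ^ (s + 1)` for a differential operator `P(s)` in the Weyl algebra, polynomial
in `s`; the Bernstein-Sato polynomial `b_f` is one of these polynomials `b`. The conclusion
`μ ≤ b.rootMultiplicity t₀` contains `b(t₀) = 0`, as `μ > 0`. -/
theorem result {n k : ℕ} (hk : 2 ≤ k) (m : Fin k → Fin n → ℕ)
    (hm : AffineIndependent ℚ (fun (j : Fin k) (i : Fin n) => (m j i : ℚ)))
    (c : Fin k → ℤ) (hc : ∀ j, c j ≠ 0) (f : MvPolynomial (Fin n) ℤ)
    (hf : f = ∑ j, MvPolynomial.C (c j) * ∏ i, MvPolynomial.X i ^ m j i) :
    ∀ p : ℕ, p.Prime →
        ∀ (T₀ : ℂ) (μ : ℕ), 0 < μ → IsPoleOfOrder (poincare p f) T₀ μ →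
        ∀ b : Polynomial ℂ, b ≠ 0 →
          Pool.Agent.H628R4.TP.IsBFunction (MvPolynomial.map (Int.castRingHom ℂ) f) b →
          μ ≤ b.rootMultiplicity ((-Real.log ‖T₀‖ / Real.log p : ℝ) : ℂ) :=
  fun _ hp T₀ μ hμ hP b hb0 hb =>
    Pool.Agent.TH216.EP.indEP hk m hm c hc f hf hp T₀ μ hμ hP b hb0 hb

end Pool.Agent.Results.MP_5d9b3c_ag.AffinelyIndependentEveryPrime
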