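import Pool.Agent.TH192.PA.Poinc

set_option autoImplicit false

/-! # Poles of the Poincaré series of forms over determinantal ideals

Let `x` be the generic matrix of one of the three spaces `S` of matrices: all `m × n` matrices, the
symmetric `n × n` matrices, the skew symmetric `n × n` matrices (`MSpace`). For `t < T` let
`F_t = ∑_j y_{t,j} M_j(x)`, where the `M_j` are the `p t`-minors of `x` (the Pfaffians of size
`2 (p t)` in the skew symmetric case), `p t < min (m, n)`, `p t < n`, or `2 (p t) + 1 < n`
(`Small`), and the `y_{t,j}` are further variables, separate for each `t`. Let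
`f = ∏ t, F_t ^ a t ∈ ℤ[x, y]` (`MSpace.formZ`).

Everything is proved here, for EVERY prime `q`: nothing is taken from a resolution of
singularities.

* Zeta function (`Pool/Agent/TH192/PA`). For fixed `x` the integral over `y` is
  `∏ t, ‖I_t(x)‖ ^ (a t s) (q - 1) / (q - q ^ (-a t s))`, where `‖I_t(x)‖` is the maximal norm of the
  minors `M_j(x)` (`y_int`). The integral over `x` is computed recursively (`tower_int`): if
  `x ≡ 0 mod q`, divide by `q`; otherwise a block of `x` (of size `1`, or `2` for the skew symmetric
  and some symmetric matrices) is invertible, `‖I_k(x)‖ = ‖I_{k-1}(x')‖` for its Schur complement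
  `x'` (`minI_schur`; a general theorem on the ideals of minors), and `x'` is equidistributed in its
  residue class modulo `q`, by the uniqueness of the Haar measure. The result is that the zeta
  function times `∏_d (q ^ (ν_d) - q ^ (-N_d s)) ∏_t (q - q ^ (-a t s))` is a polynomial in `q ^ (-s)`,
  where `ν_d` is the codimension of the locus of the matrices of rank `≤ d` (`≤ 2 d`) and
  `N_d = ∑ t, a t max (p t - d, 0)` (`igusa_rat`).
* Roots (`Pool/Agent/TH192/DT`). A functional equation of `f` gives a functional equation of the
  product of the powers `I_t ^ a t` of the ideals of the minors, with the same `b`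
  (`locEq_of_powProd`; for one form and `a = 1` this is one direction of a theorem of Mustata, 2019).
  It is lifted to a chart of the space of complete collineations (complete quadrics, complete skew
  forms) at a general point of the divisor `E_d` over the locus of the matrices of rank `≤ d`, and
  its terms are compared along `E_d`; this gives `b(-ν_d / N_d) = 0` for `N_d > 0`. The roots
  `-1 / a t` come from the strict transforms (`strict_root`).
* Poincaré series: `P_f(T) = (1 - T Z(T)) / (1 - T)` for the zeta function `Z`, as a series in
  `T = q ^ (-s)`, and `T = 1` is not a pole (`pole_of_poincare`, of the starting files). -/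

namespace Pool.Agent.Results.MP_5d9b3c_ag.DeterminantalForms

open Pool.Agent.TH192.DT Pool.Agent.TH192.PA Pool.Agent.W206.CU

/-- **Denef's question on the poles of Igusa's Poincaré series for `f = ∏ t, F_t ^ a t`**, `F_t` the
forms with the minors of size `p t` of a generic, symmetric or skew symmetric matrix as
coefficients, for every prime `q`. `poincare q f = ∑_m a_m (q ^ (-n) T) ^ m`, `a_m` the number of
zeros of `f` modulo `q ^ m`. `IsPoleOfOrder P T₀ μ`, `μ > 0`, says that `P = A / ((T - T₀) ^ μ B)` with
polynomials `A`, `B` which do not vanish at `T₀`: the rational function `P` has a pole of order `μ` at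
`T₀`. `IsBFunction f b` says that `b(s) f ^ s = P(s) f ^ (s + 1)` for a differential operator `P(s)` in
the Weyl algebra, polynomial in `s`; the Bernstein-Sato polynomial `b_f` is one of these
polynomials `b`. -/
theorem result (S : MSpace) (T : ℕ) (p a : Fin T → ℕ) (hp : ∀ t, S.Small (p t))
    (q : ℕ) (hq : q.Prime) (T₀ : ℂ) (μ : ℕ) (hμ : 0 < μ)
    (hP : IsPoleOfOrder (poincare q (S.formZ p a)) T₀ μ) (b : Polynomial ℂ)
    (hb : Pool.Agent.H628R4.TP.IsBFunction
      (MvPolynomial.map (Int.castRingHom ℂ) (S.formZ p a)) b) :
    b.eval ((-Real.log ‖T₀‖ / Real.log q : ℝ) : ℂ) = 0 := by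
  have : Fact q.Prime := ⟨hq⟩
  exact poincare_root S T p a hp T₀ μ hμ hP b hb

end Pool.Agent.Results.MP_5d9b3c_ag.DeterminantalForms
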