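import Mathlib
import Pool.Agent.TH216.EP.T6

/-!
# Poles of Igusa's Poincaré series, generic integral coefficients, at most three variables, EVERY
prime

Let `n ≤ 3` and let `f = ∑_j c_j x ^ (v j) + h`, where `h ∈ ℤ[x_1, …, x_n]` is an ARBITRARY polynomial
whose exponents are in the convex hull of the `v j`, and only the integral coefficients `c_j` (for
instance at the vertices of the Newton polytope of `f`) are generic: `g(c) ≠ 0` for a certain nonzero
polynomial `g` with rational coefficients, which depends only on the `v j` and `h`. There is no
condition on the convex hull of the `v j`, the Newton polytope of `f`, except that it is not `{0}`: the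
singularities need not be isolated, `f(0) = 0` is not assumed, and all `B1`-facets, compact or not,
are allowed. Then for EVERY prime `p` and for every pole `T₀` of Igusa's Poincaré series of `f`, the
number `t₀ = - log |T₀| / log p` is a root of the Bernstein-Sato polynomial of `f`, with one possible
exception: `t₀ = -2`, `p` in a finite set, and there is a pair of variables `x_i`, `x_k` such that `f` is
in the ideal `(x_i, x_k)` and at least two of the monomials `x ^ (v j)` are divisible once by `x_i` and not
by `x_k`, and at least two once by `x_k` and not by `x_i`. Moreover, for every prime `p` the order of the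
pole is at most the multiplicity of this root if the facets of this candidate pole are simplices
(or, more generally, simplices or `B1`-facets in a common direction at every vertex).

Method. If the `c_j` are algebraically independent over `ℚ`, the functional equation of `b_f` gives
an identity in a polynomial ring with one variable for every `v j`, hence one for the vertices of the
Newton polyhedron, and one for the vertices and the exponents outside of their convex hull. It is
turned into a multiplicative identity for the series
`∑_u p ^ (-|u|) F (⟨u, m_1⟩ - t, …, ⟨u, m_k⟩ - t)`. The coefficients of the Poincaré series are such sums,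
for every prime: on `{x | ord x_i = u_i}` the condition `p ^ t ∣ f(x)` is a condition on units depending
only on the numbers `z_j = ⟨u, m_j⟩ + ord(c_j) - t`. As `f` is nondegenerate over `ℚ̄`, a compactness
argument (Dickson's lemma) and Hensel's lemma show that the measure of this set of units is
multiplied by `p⁻¹` if `z` is replaced by `z - 1`, as soon as one of the `z_j` is `< - L`; scaling one
coordinate by units `1 + p ^ e` gives, without any good reduction, the relations between these measures
if a monomial contains a coordinate with exponent `1`. The exponents in the convex hull of the others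
are removed by expressing their thresholds by the other ones. If `-σ ≠ -1` is not a root, then in at
most three variables all compact facets at the level `σ` are simplices and all facets with a
coordinate direction are B1: for a facet with several exponents over a vertex which has exponent `1`
in a variable, and for the quadrangles with the vertices `(b, 0, 0)`, `(0, 0, b)`, `(1, 1, 0)`, `(0, 1, 1)`,
`b ≥ 2`, the candidate pole is shown to be a root, except in the special case above. In the special
case `σ = 2`, and for almost all `p` the relation between the numbers of points of `{A = 0}`, `{B = 0}` and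
`{A = B = 0}`, `f ≡ x_i A + x_k B`, over the residue field is used. Gröbner bases in the Weyl algebra over
`ℚ(c_1, …, c_r)` compare the generic Bernstein-Sato polynomial with the one of a single member.
-/

set_option autoImplicit false

namespace Pool.Agent.Results.MP_5d9b3c_ag.GenericThreeVariables

open Pool.Agent.W206.CU Pool.Agent.TH216.HD Pool.Agent.TH216.EP

/-- **Denef's question on the poles of Igusa's Poincaré series for the polynomials
`f = ∑_j c_j x ^ (v j) + h` over `ℤ` in at most three variables with generic coefficients `c_j`; all
Newton polytopes, EVERY prime `p`.**

`spa v c` is the polynomial `∑_j c_j x ^ (v j)`. `InHull v w` says that the exponent `w` is in the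
convex hull of the `v j`. `NoPair v` says that there are no two variables `x_i`, `x_k` such that every
`x ^ (v j)` is divisible by `x_i` or `x_k`, at least two of them are divisible by `x_i`, not by `x_i ^ 2` and
not by `x_k`, and at least two of them are divisible by `x_k`, not by `x_k ^ 2` and not by `x_i`.

`LocS v h σ` is a condition on the candidate pole `-σ`: for every `v j1` there is a variable `x_i` such
that each of the rays `a` of the normal fan (`IsRay v a`) with `N_a := ordA v a = min_j ⟨a, v j⟩ > 0`,
`|a| / N_a = σ` and `⟨a, v j1⟩ = N_a` (the facets through `v j1`) satisfies one of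
* its facet is a simplex (`Simp v h a`): the vectors `(v j i)_{a i ≠ 0}`, for the `j` with
  `⟨a, v j⟩ = N_a`, are linearly independent, and the exponents `w` of `h` with `⟨a, w⟩ = N_a` are in
  the convex hull of the `v j` (always so here);
* it is B1 in the direction `i` (`B1Dir v h i a`): `a i ≠ 0`, and among the monomials of the face of `a`
  (the `x ^ (v j)` and the monomials of `h` of minimal `a`-weight `N_a`) exactly one is divisible by
  `x_i`; this one is some `x ^ (v j0)` with `v j0 i = 1` (it may also occur in `h`).

`poincare p f = ∑_m a_m (p ^ (-n) T) ^ m`, `a_m` the number of zeros of `f` modulo `p ^ m`.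
`IsPoleOfOrder P T₀ m`, `m > 0`, says that `P = A / ((T - T₀) ^ m B)` with polynomials `A`, `B` which do
not vanish at `T₀`: the rational function `P` has a pole of order `m` at `T₀`. `IsBFunction f b` says
that `b(s) f ^ s = P(s) f ^ (s + 1)` for a differential operator `P(s)` in the Weyl algebra, polynomial
in `s`; the Bernstein-Sato polynomial `b_f` is one of these polynomials `b`.

Conclusion, for every prime `p` and every pole `T₀`, `t₀ = - log |T₀| / log p`: `t₀` is a root of `b` if
`t₀ ≠ -2` or `NoPair v` or `p ∉ S` (`S` is finite); if all `v j ≠ 0`, `t₀ = - σ` and `LocS v h σ`, then the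
order `m` of the pole is at most the multiplicity of `t₀` as a root of `b`. -/
theorem result {n r : ℕ} (hn : n ≤ 3) (v : Fin r → Fin n → ℕ) (hv : Function.Injective v)
    (hv1 : ∃ j, v j ≠ 0) (h : MvPolynomial (Fin n) ℤ) (hh : ∀ w ∈ h.support, InHull v w) :
    ∃ g : MvPolynomial (Fin r) ℚ, g ≠ 0 ∧
      ∀ c : Fin r → ℤ, MvPolynomial.eval (fun j => (c j : ℚ)) g ≠ 0 →
      ∃ S : Finset ℕ, ∀ p : ℕ, p.Prime →
        ∀ (T₀ : ℂ) (m : ℕ), 0 < m →
        IsPoleOfOrder (poincare p (Pool.Agent.W425.ND.spa v c + h)) T₀ m →
        ∀ b : Polynomial ℂ, b ≠ 0 → Pool.Agent.H628R4.TP.IsBFunction
          (MvPolynomial.map (Int.castRingHom ℂ) (Pool.Agent.W425.ND.spa v c + h)) b →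
        ((-Real.log ‖T₀‖ / Real.log p ≠ -2 ∨ NoPair v ∨ p ∉ S) →
          b.eval ((-Real.log ‖T₀‖ / Real.log p : ℝ) : ℂ) = 0) ∧
        ∀ σ : ℚ, -Real.log ‖T₀‖ / Real.log p = -(σ : ℝ) → (∀ j, v j ≠ 0) → LocS v h σ →
          m ≤ b.rootMultiplicity ((-Real.log ‖T₀‖ / Real.log p : ℝ) : ℂ) :=
  all3 hn v hv hv1 h hh

end Pool.Agent.Results.MP_5d9b3c_ag.GenericThreeVariables
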