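import Mathlib
import Pool.Agent.TH216.EP.GenF

/-!
# Poles of Igusa's Poincaré series for generic integral coefficients, EVERY prime: simplices and
B1-faces

Let `f = ∑_j c_j x ^ (v j) + h`, where `h ∈ ℤ[x_1, …, x_n]` is an ARBITRARY polynomial whose exponents
lie in the Newton polyhedron of the `v j ≠ 0`, and only the integral coefficients `c_j` (for instance
at the vertices of the Newton polyhedron of `f`) are generic: `g(c) ≠ 0` for a certain nonzero
polynomial `g`. Then for EVERY prime `p` and for every pole `T₀` of Igusa's Poincaré series of `f`,
the number `t₀ = - log |T₀| / log p` is `- σ` with a rational `σ`, and it is a root of the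
Bernstein-Sato polynomial of `f` if `σ = 1`, or if `σ = |a| / N_a` for a facet `a` which contains a
simplex which is not B1, or if the faces at the level `σ` are simplices or B1; in the last case the
order of the pole is at most the multiplicity of the root. So Denef's question has a positive answer
for `f` if each of the finitely many levels `|a| / N_a` of the facets satisfies one of these
conditions. The polynomial `g` does not depend on `p`; the prime `p` may divide the coefficients, the
exponents and all discriminants, and `f` may be degenerate modulo `p`.

Method. If the `c_j` are algebraically independent over `ℚ`, the functional equation of `b_f` gives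
an identity in a polynomial ring with one variable for every `v j`. It is turned into a
multiplicative identity for the series `∑_u p ^ (-|u|) F (⟨u, m_1⟩ - t, …, ⟨u, m_k⟩ - t)`. The
coefficients of the Poincaré series are such sums: on `{x | ord x_i = u_i}` the condition `p ^ t ∣ f(x)`
is a condition on units depending only on the numbers `z_j = ⟨u, m_j⟩ + ord(c_j) - t`. As `f` is
nondegenerate over `ℚ̄`, a compactness argument (Dickson's lemma) and Hensel's lemma show that the
measure of this set of units is multiplied by `p⁻¹` if `z` is replaced by `z - 1`, as soon as one of the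
`z_j` is `< - L`; scaling one coordinate by units `1 + p ^ e` gives, without any good reduction, the
relations between these measures if a monomial contains a coordinate with exponent `1`. The
exponents in the convex hull of the others are removed by expressing their thresholds by the other
ones. The Nullstellensatz and the nilpotence of the thickening of the zero set of the ideal of the
relations show that the order of the pole is at most the multiplicity of `t₀` as a root of the generic
Bernstein-Sato polynomial.
-/

set_option autoImplicit false

namespace Pool.Agent.Results.MP_5d9b3c_ag.SimplicialOrB1FacetsEveryPrime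

open Pool.Agent.W206.CU

/-- **Denef's question on the poles of Igusa's Poincaré series for the polynomials
`f = ∑_j c_j x ^ (v j) + h` over `ℤ` with generic coefficients `c_j`, for EVERY prime `p`.**

`spa v c` is the polynomial `∑_j c_j x ^ (v j)`. `NP v w` says that `w` is in the Newton polyhedron
`conv {v j} + ℝ_{≥ 0} ^ n`. `ke v h` is the family of the exponents of `h` which are not in the convex
hull `conv {v j}`; `m = Fin.append v (ke v h)` is the family of the `v j` and of these exponents.

`HypS m σ` says: let `A ⊆ {1, …, n}`, `Z` a set of indices of `m`, and `P` the polyhedron of all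
`a ∈ ℚ ^ n` with `a i ≥ 0`, `a i = 0` for `i ∉ A`, `⟨a, m j⟩ ≥ 1` for all `j` and `⟨a, m j⟩ = 1` for
`j ∉ Z` (these are the faces of the polyhedron dual to the Newton polyhedron). If `P` is nonempty, if
`|a| = σ` for all `a ∈ P` and if for every `i ∈ A` there is a `j ∉ Z` with `m j i > 0`, then
* (simplex) the vectors `(m j i)_{i ∈ A}`, `j ∉ Z`, are linearly independent (`Forced m A Z`), or
* (B1) there are `i ∈ A` and `j0` with `m j0 i = 1` such that `a i ≠ 0` for all `a ∈ P` and such that
  `⟨a, m j⟩ ≠ 1` for all `a ∈ P` and all `j ≠ j0` with `m j i > 0`: on the corresponding facets exactly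
  one monomial is divisible by `x_i`, and not by `x_i ^ 2`.

It holds if for every `v j` there is a variable `x_i` such that each facet of the Newton polyhedron
with the level `|a| / N_a = σ` which contains `v j` is a simplex or B1 in the direction `i`
(`Pool.Agent.TH216.MF.hypS_of_locS`).

`LevOK v h σ` says: if `σ` is the level `|a| / N_a` of a ray `a` of the normal fan of the Newton
polyhedron (`IsRay v a`) with `N_a := gord v a = min_j ⟨a, v j⟩ > 0`, then
* `σ = 1`, or
* `σ = |a'| / N_{a'}` for some `a' ∈ ℕ ^ n` with `N_{a'} > 0` and `NonB v False a'`: there is a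
  set `J` of `#{i | a' i ≠ 0}` elements with `⟨a', v j⟩ = N_{a'}` for `j ∈ J` such that the vectors
  `(v j i)_{a' i ≠ 0}`, `j ∈ J`, are linearly independent and such that no variable `x_i` with
  `a' i ≠ 0` occurs in exactly one of the monomials `x ^ (v j)`, `j ∈ J`, and there with exponent `1`, or
* `HypS m σ`.

`poincare p f = ∑_m a_m (p ^ (-n) T) ^ m`, `a_m` the number of zeros of `f` modulo `p ^ m`.
`IsPoleOfOrder P T₀ m`, `m > 0`, says that `P = A / ((T - T₀) ^ m B)` with polynomials `A`, `B` which do
not vanish at `T₀`: the rational function `P` has a pole of order `m` at `T₀`. `IsBFunction f b` says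
that `b(s) f ^ s = P(s) f ^ (s + 1)` for a differential operator `P(s)` in the Weyl algebra, polynomial
in `s`; the Bernstein-Sato polynomial `b_f` is one of these polynomials `b`.

Conclusion, for every prime `p` (the polynomial `g` depends only on `v` and `h`) and every pole `T₀`:
`t₀ = - log |T₀| / log p` is `- σ` with `σ` rational; if `LevOK v h σ`, then `t₀` is a root of `b`; if
`HypS m σ`, then the order `m` of the pole is at most the multiplicity of `t₀` as a root of `b`. -/
theorem result {n r : ℕ} (hr : 0 < r) (v : Fin r → Fin n → ℕ) (hv : Function.Injective v)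
    (hv0 : ∀ j, v j ≠ 0) (h : MvPolynomial (Fin n) ℤ)
    (hh : ∀ w ∈ h.support, Pool.Agent.W425.SV.NP v w) :
    ∃ g : MvPolynomial (Fin r) ℚ, g ≠ 0 ∧
      ∀ c : Fin r → ℤ, MvPolynomial.eval (fun j => (c j : ℚ)) g ≠ 0 →
      ∀ p : ℕ, p.Prime →
        ∀ (T₀ : ℂ) (m : ℕ), 0 < m →
        IsPoleOfOrder (poincare p (Pool.Agent.W425.ND.spa v c + h)) T₀ m →
        ∀ b : Polynomial ℂ, b ≠ 0 → Pool.Agent.H628R4.TP.IsBFunction
          (MvPolynomial.map (Int.castRingHom ℂ) (Pool.Agent.W425.ND.spa v c + h)) b →
        ∃ σ : ℚ, -Real.log ‖T₀‖ / Real.log p = -(σ : ℝ) ∧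
          (Pool.Agent.TH216.EP.LevOK v h σ →
            b.eval ((-Real.log ‖T₀‖ / Real.log p : ℝ) : ℂ) = 0) ∧
          (Pool.Agent.TH216.MF.HypS (Fin.append v (Pool.Agent.TH216.MF.ke v h)) (σ : ℝ) →
            m ≤ b.rootMultiplicity ((-Real.log ‖T₀‖ / Real.log p : ℝ) : ℂ)) :=
  Pool.Agent.TH216.EP.genFE hr v hv hv0 h hh

end Pool.Agent.Results.MP_5d9b3c_ag.SimplicialOrB1FacetsEveryPrime
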